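import Pool.Agent.P.MP_1a0d2e_nt.Circ

/-! The gaps between consecutive MC numbers are at most of size `N ^ ε`. -/

namespace Pool.Agent.Results.MP_1a0d2e_nt.MCGaps

open Filter Topology

/-- the lattice points in the open disc with centre `c` and radius `r` -/
def inside (c : ℝ × ℝ) (r : ℝ) : Set (ℤ × ℤ) :=
  {p | ((p.1 : ℝ) - c.1) ^ 2 + ((p.2 : ℝ) - c.2) ^ 2 < r ^ 2}

/-- some circle of radius `r` encloses exactly `n` lattice points -/
def Encl (n : ℕ) (r : ℝ) : Prop := 0 < r ∧ ∃ c : ℝ × ℝ, (inside c r).ncard = n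

/-- the supremum of the radii of the `n`-enclosing circles -/
noncomputable def R (n : ℕ) : ℝ := sSup {r | Encl n r}

/-- the supremum is attained -/
def MC (n : ℕ) : Prop := Encl n (R n)

theorem inside_finite (c : ℝ × ℝ) (r : ℝ) : (inside c r).Finite := by
  refine ((Set.finite_Icc ⌊c.1 - |r|⌋ ⌈c.1 + |r|⌉).prod
    (Set.finite_Icc ⌊c.2 - |r|⌋ ⌈c.2 + |r|⌉)).subset fun p hp => ?_
  have h : ((p.1 : ℝ) - c.1) ^ 2 + ((p.2 : ℝ) - c.2) ^ 2 < |r| ^ 2 := by rw [sq_abs]; exact hp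
  have h1 := abs_lt_of_sq_lt_sq' (a := (p.1 : ℝ) - c.1) (b := |r|)
    (by nlinarith [sq_nonneg ((p.2 : ℝ) - c.2)]) (abs_nonneg r)
  have h2 := abs_lt_of_sq_lt_sq' (a := (p.2 : ℝ) - c.2) (b := |r|)
    (by nlinarith [sq_nonneg ((p.1 : ℝ) - c.1)]) (abs_nonneg r)
  exact ⟨⟨Int.floor_le_iff.2 (by linarith [h1.1]), Int.le_ceil_iff.2 (by linarith [h1.2])⟩,
    Int.floor_le_iff.2 (by linarith [h2.1]), Int.le_ceil_iff.2 (by linarith [h2.2])⟩

theorem ncard_fract (c : ℝ × ℝ) (r : ℝ) :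
    (inside (Int.fract c.1, Int.fract c.2) r).ncard = (inside c r).ncard := by
  refine Set.ncard_congr (fun p _ => (p.1 + ⌊c.1⌋, p.2 + ⌊c.2⌋)) ?_ ?_ ?_
  · intro p hp
    simp only [inside, Set.mem_ofPred_eq, Int.fract] at hp ⊢
    push_cast
    convert hp using 3 <;> ring
  · intro p q _ _ e
    simp only [Prod.mk.injEq, add_left_inj] at e
    exact Prod.ext e.1 e.2
  · intro p hp
    refine ⟨(p.1 - ⌊c.1⌋, p.2 - ⌊c.2⌋), ?_, by simp⟩
    simp only [inside, Set.mem_ofPred_eq, Int.fract] at hp ⊢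
    push_cast
    convert hp using 3 <;> ring

theorem radius_le {N : ℕ} {c : ℝ × ℝ} {r : ℝ} (h : (inside c r).ncard ≤ N) : r ≤ N + 2 := by
  by_contra hr
  push Not at hr
  have h1 : (fun i : ℕ => (⌊c.1⌋ + i, ⌊c.2⌋)) '' Set.Iic N ⊆ inside c r := by
    rintro _ ⟨i, hi, rfl⟩
    have hi' : (i : ℝ) ≤ N := by exact_mod_cast hi
    have a1 := Int.floor_le c.1
    have a2 := Int.lt_floor_add_one c.1
    have b1 := Int.floor_le c.2
    have b2 := Int.lt_floor_add_one c.2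
    have i0 : (0 : ℝ) ≤ i := by positivity
    have k1 : ((⌊c.1⌋ : ℝ) + i - c.1) ^ 2 ≤ (N + 1) ^ 2 :=
      sq_le_sq' (by linarith) (by linarith)
    have k2 : ((⌊c.2⌋ : ℝ) - c.2) ^ 2 ≤ 1 ^ 2 := sq_le_sq' (by linarith) (by linarith)
    have k3 : ((N : ℝ) + 2) ^ 2 < r ^ 2 := by gcongr
    simp only [inside, Set.mem_ofPred_eq]
    push_cast
    nlinarith
  have h2 := Set.ncard_le_ncard h1 (inside_finite c r)
  rw [Set.ncard_image_of_injective _ (fun i j e => by simpa using e)] at h2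
  simp at h2
  omega

theorem isClosed_le (N : ℕ) : IsClosed {x : (ℝ × ℝ) × ℝ | (inside x.1 x.2).ncard ≤ N} := by
  rw [← isOpen_compl_iff, isOpen_iff_mem_nhds]
  intro x hx
  have h : ∀ᶠ y : (ℝ × ℝ) × ℝ in 𝓝 x, ∀ p ∈ inside x.1 x.2, p ∈ inside y.1 y.2 := by
    rw [(inside_finite _ _).eventually_all]
    intro p hp
    exact (isOpen_lt (f := fun y : (ℝ × ℝ) × ℝ => ((p.1 : ℝ) - y.1.1) ^ 2 + ((p.2 : ℝ) - y.1.2) ^ 2)
      (g := fun y => y.2 ^ 2) (by fun_prop) (by fun_prop)).mem_nhds hp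
  filter_upwards [h] with y hy hy'
  exact hx ((Set.ncard_le_ncard hy (inside_finite _ _)).trans hy')

/-- a largest circle that encloses at most `N` lattice points -/
theorem exists_max (N : ℕ) : ∃ (c : ℝ × ℝ) (ρ : ℝ), 0 < ρ ∧ (inside c ρ).ncard ≤ N ∧
    ∀ c' r, (inside c' r).ncard ≤ N → r ≤ ρ := by
  have hK : IsCompact ((Set.Icc ((0, 0), 0) ((1, 1), N + 2) : Set ((ℝ × ℝ) × ℝ)) ∩
      {x | (inside x.1 x.2).ncard ≤ N}) := isCompact_Icc.inter_right (isClosed_le N)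
  have h0 : (inside (1 / 2, 1 / 2) (1 / 2)).ncard ≤ N := by
    have : inside (1 / 2, 1 / 2) (1 / 2) = ∅ := by
      refine Set.eq_empty_of_forall_notMem fun p hp => ?_
      simp only [inside, Set.mem_ofPred_eq] at hp
      have h1 : (0 : ℝ) ≤ p.1 * (p.1 - 1) := by
        have : 0 ≤ p.1 * (p.1 - 1) := by nlinarith [sq_nonneg (2 * p.1 - 1)]
        exact_mod_cast this
      nlinarith [sq_nonneg ((p.2 : ℝ) - 1 / 2)]
    rw [this, Set.ncard_empty]
    exact Nat.zero_le N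
  have mem : ∀ c r, 0 ≤ r → (inside c r).ncard ≤ N → ((Int.fract c.1, Int.fract c.2), r) ∈
      (Set.Icc ((0, 0), 0) ((1, 1), N + 2) : Set ((ℝ × ℝ) × ℝ)) ∩
        {x | (inside x.1 x.2).ncard ≤ N} := fun c r hr h =>
    ⟨⟨⟨⟨Int.fract_nonneg _, Int.fract_nonneg _⟩, hr⟩,
      ⟨(Int.fract_lt_one _).le, (Int.fract_lt_one _).le⟩, radius_le h⟩,
      by rwa [Set.mem_ofPred_eq, ncard_fract]⟩
  obtain ⟨x, hx, hm⟩ := hK.exists_isMaxOn ⟨_, mem _ _ (by norm_num) h0⟩ continuous_snd.continuousOn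
  have hp : 0 < x.2 := lt_of_lt_of_le (by norm_num) (hm (mem _ _ (by norm_num) h0))
  refine ⟨x.1, x.2, hp, hx.2, fun c r h => ?_⟩
  rcases le_total r 0 with hr | hr
  · exact hr.trans hp.le
  · exact hm (mem c r hr h)

theorem result : ∀ ε : ℝ, 0 < ε → ∃ C : ℝ, ∀ N : ℕ, ∃ n : ℕ, MC n ∧ n ≤ N ∧
    (N : ℝ) < n + C * ((N : ℝ) + 1) ^ ε := by
  intro ε hε
  obtain ⟨C, hC, hS⟩ := Pool.Agent.P.MP_1a0d2e_nt.circle_bound hε
  refine ⟨C * 2 ^ ε, fun N => ?_⟩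
  obtain ⟨c, ρ, h0, h1, h2⟩ := exists_max N
  have hg : IsGreatest {r | Encl (inside c ρ).ncard r} ρ :=
    ⟨⟨h0, c, rfl⟩, fun r ⟨_, c', e⟩ => h2 c' r (e ▸ h1)⟩
  refine ⟨_, by rw [MC, R, hg.csSup_eq]; exact hg.1, h1, ?_⟩
  set S : Set (ℤ × ℤ) := {p | ((p.1 : ℝ) - c.1) ^ 2 + ((p.2 : ℝ) - c.2) ^ 2 = ρ ^ 2} with hSd
  have fS : S.Finite := (inside_finite c (ρ + 1)).subset fun p hp => by
    simp only [inside, Set.mem_ofPred_eq, hSd] at hp ⊢
    nlinarith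
  have ev : ∀ᶠ r in 𝓝 ρ, ∀ p ∈ inside c (ρ + 1) \ (inside c ρ ∪ S), p ∉ inside c r := by
    rw [((inside_finite _ _).subset Set.sdiff_subset).eventually_all]
    intro p hp
    have : ρ ^ 2 < ((p.1 : ℝ) - c.1) ^ 2 + ((p.2 : ℝ) - c.2) ^ 2 :=
      lt_of_le_of_ne (not_lt.1 fun h => hp.2 (Or.inl h)) fun h => hp.2 (Or.inr h.symm)
    filter_upwards [(isOpen_lt (f := fun r : ℝ => r ^ 2) (by fun_prop) continuous_const).mem_nhds
      this] with r hr hr'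
    exact lt_asymm hr hr'
  obtain ⟨r, hr, k1, k2⟩ := ((ev.filter_mono nhdsWithin_le_nhds).and
    (Ioo_mem_nhdsGT (lt_add_one ρ))).exists
  have sub : inside c r ⊆ inside c ρ ∪ S := fun p hp => by
    by_contra h
    refine hr p ⟨?_, h⟩ hp
    simp only [inside, Set.mem_ofPred_eq] at hp ⊢
    nlinarith
  have k3 : N < (inside c ρ).ncard + S.ncard := by
    by_contra h
    exact absurd (h2 c r (((Set.ncard_le_ncard sub ((inside_finite _ _).union fS)).trans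
      (Set.ncard_union_le _ _)).trans (not_lt.1 h))) (not_le.2 k1)
  have N0 : (0 : ℝ) ≤ N := by positivity
  have k4 := hS c ρ (2 * (N + 1)) h0 (by linarith [radius_le h1]) (by linarith) fS.toFinset
    fun p hp => by simpa [hSd] using hp
  rw [← Set.ncard_eq_toFinset_card _ fS, Real.mul_rpow (by norm_num) (by positivity),
    ← mul_assoc] at k4
  have k5 : (N : ℝ) < (inside c ρ).ncard + S.ncard := by exact_mod_cast k3
  linarith

end Pool.Agent.Results.MP_1a0d2e_nt.MCGaps
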